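import Mathlib
import Pool.Agent.Q133.YGraph2

set_option autoImplicit false

/-!
# The class `𝒢(K_{2,3})` is universal
-/

namespace Pool.Agent.Results.MP_f0827e_co.UniversalTheta

open Q133.YGraph

/-- For `Y = K_{2,3}` (on `Fin 5`, with parts `{0, 1}` and `{2, 3, 4}`), every finite group is
isomorphic to the automorphism group of a finite graph which is the intersection graph of a family
of connected subgraphs of a subdivision of `Y`. -/
theorem result (G : Type) [Group G] [Finite G] :
    ∃ (n : ℕ) (X : SimpleGraph (Fin n)), InClass K23 X ∧ Nonempty ((X ≃g X) ≃* G) :=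
  universal G

end Pool.Agent.Results.MP_f0827e_co.UniversalTheta
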